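import Pool.Agent.Lib.MP_c7af3c_ag.T2.M3.Defs

/-!
# MP_c7af3c_ag, project T2, row M3_S1: the determinant of the action on cubic forms is `det ^ 10`
-/

set_option autoImplicit false

namespace Pool.Agent.T2.H49

open MvPolynomial Pool.Agent.T2.M3

section

variable {L : Type} [Field L]

/-- the substitution -/
noncomputable def sb (m : Matrix (Fin 3) (Fin 3) L) :
    MvPolynomial (Fin 3) L →ₐ[L] MvPolynomial (Fin 3) L :=
  aeval fun i => ∑ j, C (m i j) * X j

theorem sb_X (m : Matrix (Fin 3) (Fin 3) L) (i : Fin 3) : sb m (X i) = ∑ j, C (m i j) * X j :=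
  aeval_X _ _

theorem sb_mono (m : Matrix (Fin 3) (Fin 3) L) (I : Fin 3 →₀ ℕ) :
    sb m (monomial I 1) = ∏ i, (∑ j, C (m i j) * X j) ^ (I i) := by
  rw [sb, aeval_monomial, map_one, one_mul, Finsupp.prod_fintype]
  intro i
  exact pow_zero _

theorem sb_mul (m m' : Matrix (Fin 3) (Fin 3) L) (p : MvPolynomial (Fin 3) L) :
    sb (m * m') p = sb m' (sb m p) := by
  have h : sb (m * m') = (sb m').comp (sb m) := by
    refine MvPolynomial.algHom_ext fun i => ?_
    rw [AlgHom.comp_apply, sb_X, sb_X, map_sum]
    simp_rw [map_mul, sb_X, Finset.mul_sum]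
    rw [Finset.sum_comm]
    refine Finset.sum_congr rfl fun k _ => ?_
    rw [Matrix.mul_apply, map_sum, Finset.sum_mul]
    refine Finset.sum_congr rfl fun j _ => ?_
    have h1 : sb m' (C (m i j)) = C (m i j) := (sb m').commutes (m i j)
    rw [h1, C_mul, mul_assoc]
  rw [h]
  rfl

theorem s3_apply (m : Matrix (Fin 3) (Fin 3) L) (I J : I10) :
    s3 m I J = coeff J.1 (sb m (monomial I.1 1)) := by
  rw [sb_mono]
  rfl

theorem mem10 (J : Fin 3 →₀ ℕ) : J ∈ (Finset.univ : Finset (Fin 3)).finsuppAntidiag 3 ↔
    J.degree = 3 := by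
  rw [Finset.mem_finsuppAntidiag, Finsupp.degree_eq_sum]
  simp

/-- expansion of a cubic form -/
theorem exp10 {p : MvPolynomial (Fin 3) L} (hp : p.IsHomogeneous 3) :
    p = ∑ J : I10, C (coeff J.1 p) * monomial J.1 1 := by
  ext K
  rw [coeff_sum]
  simp_rw [coeff_C_mul, coeff_monomial]
  by_cases hK : K.degree = 3
  · rw [Finset.sum_eq_single (⟨K, (mem10 K).2 hK⟩ : I10)]
    · simp
    · intro J _ hJ
      rw [if_neg, mul_zero]
      intro h
      exact hJ (Subtype.ext h)
    · intro h
      exact absurd (Finset.mem_univ _) h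
  · rw [Finset.sum_eq_zero]
    · by_contra h
      have h1 := hp h
      rw [Finsupp.degree_eq_weight_one] at hK
      exact hK h1
    · intro J _
      rw [if_neg, mul_zero]
      rintro rfl
      exact hK ((mem10 _).1 J.2)

theorem sb_hom (m : Matrix (Fin 3) (Fin 3) L) (I : I10) :
    (sb m (monomial I.1 1)).IsHomogeneous 3 := by
  rw [sb_mono]
  have h1 : ∑ i, I.1 i = 3 := by
    have := (mem10 I.1).1 I.2
    rwa [Finsupp.degree_eq_sum] at this
  have h2 := IsHomogeneous.prod (Finset.univ : Finset (Fin 3))
    (fun i => (∑ j, C (m i j) * X j) ^ (I.1 i)) (fun i => 1 * I.1 i) (by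
      intro i _
      refine IsHomogeneous.pow ?_ _
      refine IsHomogeneous.sum _ _ _ fun j _ => ?_
      have h := (isHomogeneous_C (Fin 3) (m i j)).mul (isHomogeneous_X L j)
      rwa [zero_add] at h)
  simp_rw [one_mul, h1] at h2
  exact h2

theorem s3_mul (m m' : Matrix (Fin 3) (Fin 3) L) : s3 (m * m') = s3 m * s3 m' := by
  ext I K
  rw [Matrix.mul_apply, s3_apply, sb_mul, exp10 (sb_hom m I), map_sum, coeff_sum]
  refine Finset.sum_congr rfl fun J _ => ?_
  have h1 : sb m' (C (coeff J.1 (sb m (monomial I.1 1)))) = C (coeff J.1 (sb m (monomial I.1 1))) :=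
    (sb m').commutes _
  rw [map_mul, h1, coeff_C_mul, ← s3_apply, ← s3_apply]

theorem s3_diagonal (D : Fin 3 → L) :
    s3 (Matrix.diagonal D) = Matrix.diagonal fun I : I10 => ∏ i, D i ^ (I.1 i) := by
  ext I J
  have h1 : sb (Matrix.diagonal D) (monomial I.1 1) = C (∏ i, D i ^ (I.1 i)) * monomial I.1 1 := by
    rw [sb_mono]
    have h2 : ∀ i, (∑ j, C (Matrix.diagonal D i j) * X j : MvPolynomial (Fin 3) L) =
        C (D i) * X i := by
      intro i
      rw [Finset.sum_eq_single i]
      · rw [Matrix.diagonal_apply_eq]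
      · intro j _ hj
        rw [Matrix.diagonal_apply_ne _ hj.symm, C_0, zero_mul]
      · intro h
        exact absurd (Finset.mem_univ _) h
    simp_rw [h2, mul_pow]
    rw [Finset.prod_mul_distrib, map_prod]
    congr 1
    · exact Finset.prod_congr rfl fun i _ => (map_pow _ _ _).symm
    · rw [monomial_eq, C_1, one_mul, Finsupp.prod_fintype]
      intro i
      exact pow_zero _
  rw [s3_apply, h1, coeff_C_mul, coeff_monomial, Matrix.diagonal_apply]
  by_cases h : I = J
  · rw [if_pos h, h, if_pos rfl, mul_one]
  · rw [if_neg h, if_neg (fun h' => h (Subtype.ext h')), mul_zero]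

theorem sum10 (i : Fin 3) : ∑ I : I10, I.1 i = 10 := by
  fin_cases i <;> rfl

theorem det_diagonal (D : Fin 3 → L) :
    (s3 (Matrix.diagonal D)).det = (Matrix.diagonal D).det ^ 10 := by
  rw [s3_diagonal, Matrix.det_diagonal, Matrix.det_diagonal, Finset.prod_comm, ← Finset.prod_pow]
  refine Finset.prod_congr rfl fun i _ => ?_
  rw [Finset.prod_pow_eq_pow_sum, sum10]

theorem s3_one : s3 (1 : Matrix (Fin 3) (Fin 3) L) = 1 := by
  rw [← Matrix.diagonal_one, s3_diagonal]
  simp

end

/-- M3_S1 -/
theorem s1 : S1Statement := by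
  intro L _ _ m hm
  refine Matrix.diagonal_transvection_induction_of_det_ne_zero
    (fun m => (s3 m).det = m.det ^ 10) m hm (fun D _ => det_diagonal D) ?_ ?_
  · intro t
    rw [Matrix.TransvectionStruct.det, one_pow]
    show (s3 (Matrix.transvection t.i t.j t.c)).det = 1
    obtain ⟨i, j, hij, c⟩ := t
    show (s3 (Matrix.transvection i j c)).det = 1
    have hmul : ∀ a b : L, (s3 (Matrix.transvection i j (a + b))).det =
        (s3 (Matrix.transvection i j a)).det * (s3 (Matrix.transvection i j b)).det := by
      intro a b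
      rw [← Matrix.transvection_mul_transvection_same i j hij, s3_mul, Matrix.det_mul]
    have h0 : (s3 (Matrix.transvection i j c)).det ≠ 0 := by
      intro h
      have h1 := hmul c (-c)
      rw [h, zero_mul, add_neg_cancel, Matrix.transvection_zero, s3_one, Matrix.det_one] at h1
      exact one_ne_zero h1
    -- conjugation by a diagonal matrix
    set E : Matrix (Fin 3) (Fin 3) L := Matrix.diagonal (Function.update 1 i 2) with hE
    have hEE : E * Matrix.transvection i j c = Matrix.transvection i j (c + c) * E := by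
      ext r s
      rw [hE, Matrix.diagonal_mul, Matrix.mul_diagonal]
      simp only [Matrix.transvection, Matrix.add_apply, Matrix.one_apply, Matrix.single_apply]
      by_cases hr : i = r
      · subst hr
        by_cases hs : j = s
        · subst hs
          simp [hij, hij.symm]
          ring
        · simp only [hs, and_false, if_false, add_zero]
          by_cases h : i = s
          · subst h; simp
          · simp [h]
      · have hr' : r ≠ i := fun h => hr h.symm
        by_cases h : r = s
        · subst h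
          simp [hr, hr']
        · simp [hr, h]
    have hdE : (s3 E).det ≠ 0 := by
      rw [hE, det_diagonal, Matrix.det_diagonal]
      refine pow_ne_zero _ (Finset.prod_ne_zero_iff.2 fun r _ => ?_)
      by_cases hr : r = i
      · subst hr
        rw [Function.update_self]
        exact two_ne_zero
      · rw [Function.update_of_ne hr]
        exact one_ne_zero
    have h2 := congrArg (fun M => (s3 M).det) hEE
    simp only [s3_mul, Matrix.det_mul] at h2
    rw [hmul c c, mul_comm] at h2
    have h3 := mul_right_cancel₀ hdE h2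
    have h4 : (s3 (Matrix.transvection i j c)).det * 1 =
        (s3 (Matrix.transvection i j c)).det * (s3 (Matrix.transvection i j c)).det := by
      rw [mul_one]; exact h3
    exact (mul_left_cancel₀ h0 h4).symm
  · intro A B _ _ hA hB
    rw [s3_mul, Matrix.det_mul, hA, hB, Matrix.det_mul, mul_pow]

end Pool.Agent.T2.H49
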