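import Pool.Agent.Lib.MP_c7af3c_ag.T2.Iface

/-!
# MP_c7af3c_ag, T2, row ASMA: the regular case is impossible (helper49)
-/

set_option autoImplicit false

namespace Pool.Agent.T2.H49

open MvPolynomial Pool.Agent.Gen Pool.Agent.Sharp Pool.Agent.Edge

theorem asma : AsmaStatement := by
  intro hLd hDex hLoc hTaub hHull hW2 hVanb hWordb hAnnb hReg hExta hCorea hEnda Ω _ _ k Γ _ S D
    x j0 hS A hA
  by_contra hc
  obtain ⟨s, r, η, t, P, A0, hG⟩ := hReg hLoc hTaub hHull hW2 hVanb hWordb hAnnb Ω k Γ S D x j0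
    hS ⟨A, hA, by omega⟩
  obtain ⟨Ω', _, _, _, K, D', x', η', P', A0', hK, hG'⟩ := hExta hLd hDex Ω k D x j0 s r η t P
    A0 hG
  obtain ⟨a, hcore⟩ := hCorea Ω' K D' x' j0 s r η' t P' A0' hG'
  have hr2 := hG'.r2
  obtain ⟨N, ι, u, h1, h2, h3, h4⟩ := hEnda Ω' K hK r (fun i => x' (t i)) a (by omega) hcore
  refine nopencil Ω' K 4 1 r (fun _ => 6) D' x' P' (fun i => x' (t i)) hG'.kalg ?_ ?_
    (by omega) ?_ hG'.hull.Pk ?_ hG'.hull.xP hcore.yk N ι u h1 h2 h3 h4
  · intro m I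
    rw [Subsingleton.elim m 0]
    exact hG'.kF I
  · intro m
    rw [Subsingleton.elim m 0]
    exact hG'.h0
  · simp only [Finset.univ_unique, Finset.sum_singleton]
    omega
  · rw [Fintype.linearIndependent_iff]
    intro c hc i
    have h5 := congrFun hc (t i)
    rw [Finset.sum_apply, Pi.zero_apply, Finset.sum_eq_single i] at h5
    · rwa [Pi.smul_apply, hG'.hull.Pt, if_pos rfl, smul_eq_mul, mul_one] at h5
    · intro j _ hj
      rw [Pi.smul_apply, hG'.hull.Pt, if_neg hj, smul_zero]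
    · intro hi
      exact absurd (Finset.mem_univ _) hi

end Pool.Agent.T2.H49
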