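import Pool.Agent.Lib.MP_c7af3c_ag.GEN.H12.Reln

/-!
# MP_c7af3c_ag, T2: rational normal curves (dimension count)
A generic complete intersection contains no rational normal curve of degree `r` if
`(r + 1) (n + 1) < sum (r d_m + 1) + 4`.
-/

set_option autoImplicit false
set_option maxHeartbeats 1000000

namespace Pool.Agent.T2.H49

open MvPolynomial Pool.Agent.Gen

variable {Ω : Type} [Field Ω]

/-- the polynomial with the coefficients `v` -/
noncomputable def toPoly {r : ℕ} : (Fin (r + 1) → Ω) →ₗ[Ω] Polynomial Ω where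
  toFun v := ∑ j, Polynomial.C (v j) * Polynomial.X ^ (j : ℕ)
  map_add' v w := by simp [add_mul, Finset.sum_add_distrib]
  map_smul' a v := by
    simp only [Pi.smul_apply, smul_eq_mul, map_mul, RingHom.id_apply, Polynomial.smul_eq_C_mul,
      Finset.mul_sum, mul_assoc]

theorem toPoly_apply {r : ℕ} (v : Fin (r + 1) → Ω) :
    toPoly v = ∑ j, Polynomial.C (v j) * Polynomial.X ^ (j : ℕ) := rfl

theorem toPoly_coeff {r : ℕ} (v : Fin (r + 1) → Ω) (j : Fin (r + 1)) :
    (toPoly v).coeff j = v j := by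
  rw [toPoly_apply, Polynomial.finsetSum_coeff]
  simp only [Polynomial.coeff_C_mul, Polynomial.coeff_X_pow]
  rw [Finset.sum_eq_single j]
  · simp
  · intro b _ hb
    rw [if_neg (fun h => hb (Fin.ext h.symm)), mul_zero]
  · simp

theorem toPoly_coeff_of_le {r : ℕ} (v : Fin (r + 1) → Ω) (j : ℕ) (hj : r < j) :
    (toPoly v).coeff j = 0 := by
  rw [toPoly_apply, Polynomial.finsetSum_coeff]
  simp only [Polynomial.coeff_C_mul, Polynomial.coeff_X_pow]
  refine Finset.sum_eq_zero fun b _ => ?_
  rw [if_neg, mul_zero]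
  intro h
  have := b.2
  omega

theorem natDegree_toPoly {r : ℕ} (v : Fin (r + 1) → Ω) : (toPoly v).natDegree ≤ r :=
  Polynomial.natDegree_le_iff_coeff_eq_zero.2 fun j hj => toPoly_coeff_of_le v j hj

theorem toPoly_of_coeff {r : ℕ} (q : Polynomial Ω) (h : ∀ j, r < j → q.coeff j = 0) :
    toPoly (fun j : Fin (r + 1) => q.coeff j) = q := by
  ext j
  by_cases hj : r < j
  · rw [toPoly_coeff_of_le _ _ hj, h j hj]
  · exact toPoly_coeff (fun j : Fin (r + 1) => q.coeff j) ⟨j, by omega⟩

theorem eval_toPoly {r : ℕ} (v : Fin (r + 1) → Ω) (t : Ω) :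
    (toPoly v).eval t = ∑ j, v j * t ^ (j : ℕ) := by
  rw [toPoly_apply, Polynomial.eval_finsetSum]
  simp

/-- the curve -/
noncomputable def crv {r n : ℕ} (A : Fin (r + 1) → Fin (n + 1) → Ω) (p : Fin (n + 1)) :
    Polynomial Ω := toPoly fun j => A j p

/-- restriction to the curve -/
noncomputable def rst {r n : ℕ} (A : Fin (r + 1) → Fin (n + 1) → Ω) :
    MvPolynomial (Fin (n + 1)) Ω →ₐ[Ω] Polynomial Ω := aeval (crv A)

theorem eval_rst {r n : ℕ} (A : Fin (r + 1) → Fin (n + 1) → Ω) (G : MvPolynomial (Fin (n + 1)) Ω)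
    (t : Ω) : (rst A G).eval t = eval (fun p => (crv A p).eval t) G := by
  induction G using MvPolynomial.induction_on with
  | C a => simp [rst]
  | add F G hF hG => rw [map_add, Polynomial.eval_add, hF, hG, map_add]
  | mul_X F i hF =>
    rw [map_mul, Polynomial.eval_mul, hF, map_mul, eval_X]
    congr 1
    simp [rst]

theorem natDegree_rst {r n : ℕ} (A : Fin (r + 1) → Fin (n + 1) → Ω)
    (G : MvPolynomial (Fin (n + 1)) Ω) (d : ℕ) (hG : G.IsHomogeneous d) :
    (rst A G).natDegree ≤ r * d := by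
  rw [G.as_sum, map_sum]
  refine Polynomial.natDegree_sum_le_of_forall_le _ _ fun I hI => ?_
  have hd : I.degree = d := by
    have := hG (mem_support_iff.1 hI)
    rwa [Finsupp.degree_eq_weight_one]
  unfold rst
  rw [aeval_monomial]
  refine (Polynomial.natDegree_C_mul_le _ _).trans ?_
  rw [Finsupp.prod]
  refine (Polynomial.natDegree_prod_le _ _).trans ?_
  refine (Finset.sum_le_sum fun p _ => Polynomial.natDegree_pow_le (p := crv A p)).trans ?_
  refine (Finset.sum_le_sum fun p _ => Nat.mul_le_mul_left _ (natDegree_toPoly _)).trans ?_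
  rw [← Finset.sum_mul, ← hd, mul_comm, Finsupp.degree_apply]

theorem derivative_rst {r n : ℕ} (A : Fin (r + 1) → Fin (n + 1) → Ω)
    (G : MvPolynomial (Fin (n + 1)) Ω) :
    Polynomial.derivative (rst A G) =
      ∑ p, rst A (pderiv p G) * Polynomial.derivative (crv A p) := by
  classical
  induction G using MvPolynomial.induction_on with
  | C a => simp [rst]
  | add F G hF hG =>
    rw [map_add, map_add, hF, hG]
    simp only [map_add, add_mul, Finset.sum_add_distrib]
  | mul_X F i hF =>
    have h0 : rst A (X i) = crv A i := by simp [rst]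
    have h2 : ∀ p, rst A (pderiv p (F * X i)) * Polynomial.derivative (crv A p) =
        rst A (pderiv p F) * Polynomial.derivative (crv A p) * crv A i +
          if p = i then rst A F * Polynomial.derivative (crv A i) else 0 := by
      intro p
      rw [pderiv_mul, map_add, map_mul, map_mul, h0]
      by_cases h : p = i
      · subst h
        rw [pderiv_X_self, map_one, if_pos rfl]
        ring
      · rw [pderiv_X_of_ne (Ne.symm h), map_zero, if_neg h]
        ring
    simp only [h2, Finset.sum_add_distrib, Finset.sum_ite_eq', Finset.mem_univ, if_true]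
    rw [map_mul, Polynomial.derivative_mul, hF, h0, ← Finset.sum_mul]

theorem euler_rst {r n d : ℕ} (A : Fin (r + 1) → Fin (n + 1) → Ω)
    (G : MvPolynomial (Fin (n + 1)) Ω) (hG : G.IsHomogeneous d) :
    ∑ p, rst A (pderiv p G) * crv A p = d * rst A G := by
  have h := hG.sum_X_mul_pderiv
  have h2 := congrArg (rst A) h
  rw [map_sum, map_nsmul, nsmul_eq_mul] at h2
  rw [← h2]
  refine Finset.sum_congr rfl fun p _ => ?_
  rw [map_mul, mul_comm]
  congr 1
  simp [rst]

theorem exists_dual {r n : ℕ} (A : Fin (r + 1) → Fin (n + 1) → Ω)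
    (hA : LinearIndependent Ω A) :
    ∃ Q : Fin (r + 1) → Fin (n + 1) → Ω, ∀ i i', ∑ j, Q i j * A i' j =
      if i = i' then 1 else 0 := by
  classical
  obtain ⟨g, hg⟩ := LinearMap.exists_leftInverse_of_injective
    (Fintype.linearCombination Ω A)
    (LinearMap.ker_eq_bot.2 (linearIndependent_iff_injective_fintypeLinearCombination.1 hA))
  refine ⟨fun i j => g (Pi.single j 1) i, fun i i' => ?_⟩
  have h1 : g (A i') = Pi.single i' 1 := by
    have := LinearMap.congr_fun hg (Pi.single i' 1)
    simpa [Fintype.linearCombination_apply] using this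
  have h2 : A i' = ∑ j, A i' j • (Pi.single j 1 : Fin (n + 1) → Ω) := by
    ext k
    simp [Finset.sum_apply, Pi.single_apply]
  rw [h2, map_sum] at h1
  have h3 := congrFun h1 i
  simp only [map_smul, Finset.sum_apply, Pi.smul_apply, smul_eq_mul] at h3
  rw [← Pi.single_apply, ← h3]
  exact Finset.sum_congr rfl fun j _ => mul_comm _ _

theorem exists_form {r n : ℕ} (A : Fin (r + 1) → Fin (n + 1) → Ω)
    (hA : LinearIndependent Ω A) (d s : ℕ) (hs : s ≤ r * d) :
    ∃ G : MvPolynomial (Fin (n + 1)) Ω, G.IsHomogeneous d ∧ rst A G = Polynomial.X ^ s := by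
  obtain ⟨Q, hQ⟩ := exists_dual A hA
  have hl : ∀ j : Fin (r + 1), rst A (∑ f, C (Q j f) * X f) = Polynomial.X ^ (j : ℕ) := by
    intro j
    have h1 : rst A (∑ f, C (Q j f) * X f) = ∑ f, Polynomial.C (Q j f) * crv A f := by
      rw [map_sum]
      exact Finset.sum_congr rfl fun f _ => by simp [rst]
    rw [h1]
    have h3 : ∀ i : Fin (r + 1),
        ∑ f, Polynomial.C (Q j f) * (Polynomial.C (A i f) * Polynomial.X ^ (i : ℕ)) =
        Polynomial.C (∑ f, Q j f * A i f) * Polynomial.X ^ (i : ℕ) := by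
      intro i
      rw [map_sum, Finset.sum_mul]
      exact Finset.sum_congr rfl fun f _ => by rw [map_mul]; ring
    simp only [crv, toPoly_apply, Finset.mul_sum]
    rw [Finset.sum_comm, Finset.sum_congr rfl fun i _ => h3 i, Finset.sum_eq_single j]
    · rw [hQ, if_pos rfl, map_one, one_mul]
    · intro i _ hi
      rw [hQ, if_neg (Ne.symm hi), map_zero, zero_mul]
    · intro h
      exact absurd (Finset.mem_univ _) h
  have hlh : ∀ j : Fin (r + 1), (∑ f, C (Q j f) * X f : MvPolynomial (Fin (n + 1)) Ω).IsHomogeneous 1 := by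
    intro j
    refine IsHomogeneous.sum _ _ _ fun i _ => ?_
    simpa using (isHomogeneous_C _ (Q j i)).mul (isHomogeneous_X Ω i)
  induction d generalizing s with
  | zero =>
    refine ⟨1, isHomogeneous_one _ _, ?_⟩
    have : s = 0 := by omega
    rw [this, map_one, pow_zero]
  | succ d ih =>
    obtain ⟨G, hG, hG2⟩ := ih (s - min s r) (by
      rw [Nat.mul_succ] at hs
      omega)
    have hj : min s r < r + 1 := by omega
    refine ⟨G * ∑ f, C (Q ⟨min s r, hj⟩ f) * X f, hG.mul (hlh _), ?_⟩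
    rw [map_mul, hG2, hl, ← pow_add]
    congr 1
    show s - min s r + min s r = s
    omega

section count

variable {r n c : ℕ} {d : Fin c → ℕ} (D : DSys Ω n c d) (A : Fin (r + 1) → Fin (n + 1) → Ω)

/-- the differential of the restriction -/
noncomputable def Lp (ψ : Fin (r + 1) → Fin (n + 1) → Ω) (m : Fin c) : Polynomial Ω :=
  ∑ p, rst A (pderiv p (D.F m)) * toPoly (fun j => ψ j p)

theorem Lp_add (ψ ψ' : Fin (r + 1) → Fin (n + 1) → Ω) (m : Fin c) :
    Lp D A (ψ + ψ') m = Lp D A ψ m + Lp D A ψ' m := by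
  unfold Lp
  rw [← Finset.sum_add_distrib]
  refine Finset.sum_congr rfl fun p _ => ?_
  rw [← mul_add, ← map_add]
  rfl

theorem Lp_smul (a : Ω) (ψ : Fin (r + 1) → Fin (n + 1) → Ω) (m : Fin c) :
    Lp D A (a • ψ) m = a • Lp D A ψ m := by
  unfold Lp
  rw [Finset.smul_sum]
  refine Finset.sum_congr rfl fun p _ => ?_
  rw [← mul_smul_comm, ← map_smul]
  rfl

/-- the same with the coefficients -/
noncomputable def Lm : (Fin (r + 1) → Fin (n + 1) → Ω) →ₗ[Ω]
    (∀ m : Fin c, Fin (r * d m + 1) → Ω) where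
  toFun ψ m s := (Lp D A ψ m).coeff s
  map_add' ψ ψ' := by
    funext m s
    simp only [Lp_add, Polynomial.coeff_add, Pi.add_apply]
  map_smul' a ψ := by
    funext m s
    simp only [Lp_smul, Polynomial.coeff_smul, Pi.smul_apply, RingHom.id_apply]

theorem V_crv (m : Fin c) (G : MvPolynomial (Fin (n + 1)) Ω) (p : Fin (n + 1)) (τ : ℕ) :
    D.V (fun p => (crv A p).eval (τ : Ω)) m G p =
      (toPoly fun j => D.V (A j) m G p).eval (τ : Ω) := by
  rw [D.V_apply, eval_toPoly]
  simp only [D.V_apply, crv, eval_toPoly, map_sum, Finset.sum_mul, Finset.mul_sum]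
  rw [Finset.sum_comm]
  refine Finset.sum_congr rfl fun j _ => Finset.sum_congr rfl fun I _ => ?_
  rw [Derivation.leibniz]
  have h1 : D.del m I ((τ : Ω) ^ (j : ℕ)) = 0 := by
    rw [← Nat.cast_pow]
    exact Derivation.map_natCast _ _
  rw [h1, smul_zero, zero_add, smul_eq_mul]
  ring

theorem Lp_V [CharZero Ω] (h0 : ∀ m, rst A (D.F m) = 0) (m m' : Fin c)
    (G : MvPolynomial (Fin (n + 1)) Ω) (hG : G.IsHomogeneous (d m)) :
    Lp D A (fun j p => D.V (A j) m G p) m' = if m = m' then - rst A G else 0 := by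
  refine Polynomial.eq_of_infinite_eval_eq _ _ ?_
  refine (Set.infinite_range_of_injective (Nat.cast_injective (R := Ω))).mono ?_
  rintro _ ⟨τ, rfl⟩
  have hx : ∀ m, eval (fun p => (crv A p).eval (τ : Ω)) (D.F m) = 0 := by
    intro m
    rw [← eval_rst, h0, Polynomial.eval_zero]
  have h1 := Pool.Agent.Gen.H12.reln Ω n c d D _ hx m m' G hG
  show Polynomial.eval (τ : Ω) _ = Polynomial.eval (τ : Ω) _
  have h2 : Polynomial.eval (τ : Ω) (if m = m' then - rst A G else 0) =
      if m = m' then - eval (fun p => (crv A p).eval (τ : Ω)) G else 0 := by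
    split_ifs
    · rw [Polynomial.eval_neg, eval_rst]
    · exact Polynomial.eval_zero
  rw [h2, ← h1]
  unfold Lp
  rw [Polynomial.eval_finsetSum]
  refine Finset.sum_congr rfl fun p _ => ?_
  rw [Polynomial.eval_mul, eval_rst, V_crv]

theorem Lm_surj [CharZero Ω] (hA : LinearIndependent Ω A) (h0 : ∀ m, rst A (D.F m) = 0) :
    Function.Surjective (Lm D A) := by
  classical
  have h1 : ∀ (m : Fin c) (s : Fin (r * d m + 1)), ∃ ψ, Lm D A ψ =
      Pi.single m (Pi.single s 1) := by
    intro m s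
    obtain ⟨G, hG, hG2⟩ := exists_form A hA (d m) s (by omega)
    refine ⟨(-1 : Ω) • fun j p => D.V (A j) m G p, ?_⟩
    funext m' s'
    show (Lp D A ((-1 : Ω) • fun j p => D.V (A j) m G p) m').coeff s' = _
    rw [Lp_smul, Lp_V D A h0 m m' G hG, hG2]
    by_cases hm : m = m'
    · subst hm
      rw [if_pos rfl, Pi.single_eq_same, Pi.single_apply]
      simp [Polynomial.coeff_X_pow, Fin.ext_iff]
    · rw [if_neg hm, Pi.single_eq_of_ne (Ne.symm hm)]
      simp
  choose ψ hψ using h1
  intro v
  refine ⟨∑ m, ∑ s, v m s • ψ m s, ?_⟩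
  rw [map_sum]
  simp only [map_sum, map_smul, hψ]
  funext m s
  simp only [Finset.sum_apply, Pi.smul_apply, smul_eq_mul]
  rw [Finset.sum_eq_single m]
  · rw [Finset.sum_eq_single s]
    · simp
    · intro b _ hb
      rw [Pi.single_eq_same, Pi.single_eq_of_ne (Ne.symm hb), mul_zero]
    · intro h
      exact absurd (Finset.mem_univ _) h
  · intro b _ hb
    refine Finset.sum_eq_zero fun s' _ => ?_
    rw [Pi.single_eq_of_ne (Ne.symm hb), Pi.zero_apply, mul_zero]
  · intro h
    exact absurd (Finset.mem_univ _) h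

/-- the coefficients of a family of polynomials -/
noncomputable def cf (r : ℕ) {n : ℕ} (q : Fin (n + 1) → Polynomial Ω) :
    Fin (r + 1) → Fin (n + 1) → Ω := fun j p => (q p).coeff j

theorem Lp_cf (q : Fin (n + 1) → Polynomial Ω) (hq : ∀ p j, r < j → (q p).coeff j = 0)
    (m : Fin c) : Lp D A (cf r q) m = ∑ p, rst A (pderiv p (D.F m)) * q p := by
  unfold Lp cf
  exact Finset.sum_congr rfl fun p _ => by rw [toPoly_of_coeff (r := r) (q p) (hq p)]

/-- four tangent fields -/
noncomputable def tf : Fin 4 → Fin (n + 1) → Polynomial Ω :=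
  ![crv A, fun p => Polynomial.derivative (crv A p),
    fun p => Polynomial.X * Polynomial.derivative (crv A p),
    fun p => Polynomial.X * (Polynomial.X * Polynomial.derivative (crv A p)) -
      Polynomial.X * (Polynomial.C (r : Ω) * crv A p)]

theorem tf_coeff (hr : 1 ≤ r) (i : Fin 4) (p : Fin (n + 1)) (j : ℕ) (hj : r < j) :
    (tf A i p).coeff j = 0 := by
  have h0 : ∀ j, r < j → (crv A p).coeff j = 0 := fun j hj => toPoly_coeff_of_le _ j hj
  have h1 : ∀ j, r ≤ j → (Polynomial.derivative (crv A p)).coeff j = 0 := by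
    intro j hj
    rw [Polynomial.coeff_derivative, h0 _ (by omega), zero_mul]
  obtain ⟨j, rfl⟩ : ∃ j', j = j' + 1 := ⟨j - 1, by omega⟩
  fin_cases i
  · exact h0 _ hj
  · exact h1 _ (by omega)
  · show (Polynomial.X * Polynomial.derivative (crv A p)).coeff (j + 1) = 0
    rw [Polynomial.coeff_X_mul]
    exact h1 _ (by omega)
  · show (Polynomial.X * (Polynomial.X * Polynomial.derivative (crv A p)) -
      Polynomial.X * (Polynomial.C (r : Ω) * crv A p)).coeff (j + 1) = 0
    rw [Polynomial.coeff_sub, Polynomial.coeff_X_mul, Polynomial.coeff_X_mul,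
      Polynomial.coeff_C_mul]
    obtain ⟨j, rfl⟩ : ∃ j', j = j' + 1 := ⟨j - 1, by omega⟩
    rw [Polynomial.coeff_X_mul, Polynomial.coeff_derivative]
    rcases Nat.lt_or_ge r (j + 1) with h | h
    · rw [h0 _ h]; ring
    · have h5 : (r : Ω) = (j : Ω) + 1 := by
        have : r = j + 1 := by omega
        exact_mod_cast congrArg (Nat.cast : ℕ → Ω) this
      rw [h5]
      ring

theorem tf_ker (hr : 1 ≤ r) (h0 : ∀ m, rst A (D.F m) = 0) (i : Fin 4) :
    Lm D A (cf r (tf A i)) = 0 := by
  have h1 : ∀ m, ∑ p, rst A (pderiv p (D.F m)) * crv A p = 0 := by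
    intro m
    rw [euler_rst A _ (D.hom m), h0, mul_zero]
  have h2 : ∀ m, ∑ p, rst A (pderiv p (D.F m)) * Polynomial.derivative (crv A p) = 0 := by
    intro m
    rw [← derivative_rst, h0, map_zero]
  have h3 : ∀ m, Lp D A (cf r (tf A i)) m = 0 := by
    intro m
    rw [Lp_cf D A _ (fun p j hj => tf_coeff A hr i p j hj)]
    fin_cases i
    · exact h1 m
    · exact h2 m
    · show ∑ p, rst A (pderiv p (D.F m)) * (Polynomial.X * Polynomial.derivative (crv A p)) = 0
      rw [← mul_zero Polynomial.X, ← h2 m, Finset.mul_sum]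
      exact Finset.sum_congr rfl fun p _ => by ring
    · show ∑ p, rst A (pderiv p (D.F m)) *
        (Polynomial.X * (Polynomial.X * Polynomial.derivative (crv A p)) -
          Polynomial.X * (Polynomial.C (r : Ω) * crv A p)) = 0
      have h4 : ∑ p, rst A (pderiv p (D.F m)) *
        (Polynomial.X * (Polynomial.X * Polynomial.derivative (crv A p)) -
          Polynomial.X * (Polynomial.C (r : Ω) * crv A p)) =
          Polynomial.X * (Polynomial.X * ∑ p, rst A (pderiv p (D.F m)) *
            Polynomial.derivative (crv A p)) - Polynomial.X * (Polynomial.C (r : Ω) *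
              ∑ p, rst A (pderiv p (D.F m)) * crv A p) := by
        simp only [Finset.mul_sum, ← Finset.sum_sub_distrib]
        exact Finset.sum_congr rfl fun p _ => by ring
      rw [h4, h1, h2]
      simp
  funext m s
  show (Lp D A (cf r (tf A i)) m).coeff s = 0
  rw [h3, Polynomial.coeff_zero]

theorem tf_indep [CharZero Ω] (hr : 1 ≤ r) (hA : LinearIndependent Ω A) :
    LinearIndependent Ω fun i => cf r (tf A i) := by
  have hne : (⟨0, by omega⟩ : Fin (r + 1)) ≠ ⟨1, by omega⟩ := by
    simp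
  have h2 : LinearIndependent Ω ![A ⟨0, by omega⟩, A ⟨1, by omega⟩] := by
    have h3 := hA.comp ![(⟨0, by omega⟩ : Fin (r + 1)), ⟨1, by omega⟩] (by
      intro a b hab
      fin_cases a <;> fin_cases b <;> simp_all)
    convert h3 using 1
    funext i
    fin_cases i <;> rfl
  have hc0 : ∀ p, (crv A p).coeff 0 = A ⟨0, by omega⟩ p := fun p =>
    toPoly_coeff (fun j => A j p) ⟨0, by omega⟩
  have hc1 : ∀ p, (crv A p).coeff 1 = A ⟨1, by omega⟩ p := fun p =>
    toPoly_coeff (fun j => A j p) ⟨1, by omega⟩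
  have hx0 : ∀ q : Polynomial Ω, (Polynomial.X * q).coeff 0 = 0 := fun q =>
    Polynomial.coeff_X_mul_zero q
  have hx1 : ∀ q : Polynomial Ω, (Polynomial.X * q).coeff 1 = q.coeff 0 := fun q =>
    Polynomial.coeff_X_mul q 0
  rw [LinearIndependent.pair_iff] at h2
  rw [Fintype.linearIndependent_iff]
  intro g hg
  rw [Fin.sum_univ_four] at hg
  have e0 := fun p => congrFun (congrFun hg ⟨0, by omega⟩) p
  have e1 := fun p => congrFun (congrFun hg ⟨1, by omega⟩) p
  simp only [cf, tf, Pi.add_apply, Pi.smul_apply, smul_eq_mul, Pi.zero_apply,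
    Matrix.cons_val_zero, Matrix.cons_val_one, Matrix.cons_val] at e0 e1
  have f0 : ∀ p, g 0 * A ⟨0, by omega⟩ p + g 1 * A ⟨1, by omega⟩ p = 0 := by
    intro p
    have := e0 p
    rw [Polynomial.coeff_sub, hx0, hx0, hx0, Polynomial.coeff_derivative, hc0, zero_add,
      hc1] at this
    simpa using this
  obtain ⟨g0, g1⟩ := h2 (g 0) (g 1) (funext fun p => by simpa using f0 p)
  have f1 : ∀ p, (-(g 3 * r)) * A ⟨0, by omega⟩ p + g 2 * A ⟨1, by omega⟩ p = 0 := by
    intro p
    have := e1 p
    have hd0 : (Polynomial.derivative (crv A p)).coeff 0 = A ⟨1, by omega⟩ p := by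
      rw [Polynomial.coeff_derivative, zero_add, hc1]
      simp
    rw [g0, g1, Polynomial.coeff_sub, hx1, hx1, hx1, hx0, Polynomial.coeff_C_mul, hc0,
      hd0] at this
    rw [← this]
    ring
  obtain ⟨g3, g2⟩ := h2 (-(g 3 * r)) (g 2) (funext fun p => by simpa using f1 p)
  have hr0 : (r : Ω) ≠ 0 := by
    rw [Nat.cast_ne_zero]; omega
  have g3' : g 3 = 0 := by
    rcases mul_eq_zero.1 (neg_eq_zero.1 g3) with h | h
    · exact h
    · exact absurd h hr0
  intro i
  fin_cases i
  · exact g0
  · exact g1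
  · exact g2
  · exact g3'

/-- **The count**: no rational normal curves. -/
theorem rnc [CharZero Ω] (hr : 1 ≤ r) (hA : LinearIndependent Ω A)
    (hnum : (r + 1) * (n + 1) < ∑ m, (r * d m + 1) + 4) : ∃ m, rst A (D.F m) ≠ 0 := by
  by_contra hc
  push Not at hc
  have h1 := Lm_surj D A hA hc
  have h2 := LinearMap.finrank_range_add_finrank_ker (Lm D A)
  rw [LinearMap.range_eq_top.2 h1, finrank_top, Module.finrank_pi_fintype,
    Module.finrank_pi_fintype] at h2
  simp only [Module.finrank_fin_fun, Finset.sum_const, Finset.card_univ, Fintype.card_fin,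
    smul_eq_mul] at h2
  have h3 : LinearIndependent Ω fun i : Fin 4 =>
      (⟨cf r (tf A i), tf_ker D A hr hc i⟩ : LinearMap.ker (Lm D A)) := by
    refine LinearIndependent.of_comp (LinearMap.ker (Lm D A)).subtype ?_
    exact tf_indep A hr hA
  have h4 := h3.fintype_card_le_finrank
  rw [Fintype.card_fin] at h4
  omega

end count

theorem eval_scale {n d : ℕ} {F : MvPolynomial (Fin (n + 1)) Ω} (hF : F.IsHomogeneous d)
    (lam : Ω) (x : Fin (n + 1) → Ω) :
    eval (fun p => lam * x p) F = lam ^ d * eval x F := by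
  rw [eval_eq, eval_eq, Finset.mul_sum]
  refine Finset.sum_congr rfl fun I hI => ?_
  have hd : I.degree = d := by
    have := hF (mem_support_iff.1 hI)
    rwa [Finsupp.degree_eq_weight_one]
  simp only [mul_pow]
  rw [Finset.prod_mul_distrib, Finset.prod_pow_eq_pow_sum, ← hd, Finsupp.degree_apply]
  ring

/-- a point on a rational normal curve over `K` -/
theorem no_rnc_point {K : Type} [Field K] [CharZero Ω] [Algebra K Ω]
    (hK : ∀ z : Ω, IsAlgebraic K z → z ∈ Set.range (algebraMap K Ω))
    {r n c : ℕ} {d : Fin c → ℕ} (D : DSys Ω n c d)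
    (hF : ∀ m I, coeff I (D.F m) ∈ Set.range (algebraMap K Ω))
    (hr : 1 ≤ r) (hnum : (r + 1) * (n + 1) < ∑ m, (r * d m + 1) + 4)
    (A : Fin (r + 1) → Fin (n + 1) → K)
    (hA : LinearIndependent Ω fun j p => algebraMap K Ω (A j p)) (t lam : Ω)
    (ht : t ∉ Set.range (algebraMap K Ω)) (hlam : lam ≠ 0)
    (h0 : ∀ m, eval (fun p => lam * ∑ j, algebraMap K Ω (A j p) * t ^ (j : ℕ)) (D.F m) = 0) :
    False := by
  obtain ⟨m, hm⟩ := rnc D (fun j p => algebraMap K Ω (A j p)) hr hA hnum
  set A' : Fin (r + 1) → Fin (n + 1) → Ω := fun j p => algebraMap K Ω (A j p) with hA'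
  have h1 : (rst A' (D.F m)).eval t = 0 := by
    rw [eval_rst]
    have h2 : ∀ p, (crv A' p).eval t = ∑ j, A' j p * t ^ (j : ℕ) := fun p => by
      rw [crv, eval_toPoly]
    simp only [h2]
    have h3 := h0 m
    have h4 : eval (fun p => lam * ∑ j, algebraMap K Ω (A j p) * t ^ (j : ℕ)) (D.F m) =
        lam ^ (d m) * eval (fun p => ∑ j, A' j p * t ^ (j : ℕ)) (D.F m) :=
      eval_scale (D.hom m) _ _
    rw [h4] at h3
    rcases mul_eq_zero.1 h3 with h | h
    · exact absurd h (pow_ne_zero _ hlam)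
    · exact h
  -- the coefficients of the restriction are in `K`
  have h5 : rst A' (D.F m) ∈ Polynomial.lifts (algebraMap K Ω) := by
    rw [(D.F m).as_sum, map_sum]
    refine sum_mem fun I _ => ?_
    unfold rst
    rw [aeval_monomial]
    refine mul_mem ?_ ?_
    · obtain ⟨a, ha⟩ := hF m I
      rw [← ha]
      exact ⟨Polynomial.C a, by simp⟩
    · refine prod_mem fun p _ => pow_mem ?_ _
      have e1 : ∀ a : K, Polynomial.C (algebraMap K Ω a) ∈ Polynomial.lifts (algebraMap K Ω) :=
        fun a => ⟨Polynomial.C a, by simp⟩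
      have e2 : (Polynomial.X : Polynomial Ω) ∈ Polynomial.lifts (algebraMap K Ω) :=
        ⟨Polynomial.X, by simp⟩
      unfold crv
      rw [toPoly_apply]
      exact sum_mem fun j _ => mul_mem (e1 (A j p)) (pow_mem e2 _)
  obtain ⟨q, hq⟩ := h5
  apply ht
  apply hK
  refine ⟨q, ?_, ?_⟩
  · rintro rfl
    apply hm
    rw [← hq]
    simp
  · rw [Polynomial.aeval_def, Polynomial.eval₂_eq_eval_map]
    rw [← h1, ← hq]
    rfl

end Pool.Agent.T2.H49
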