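import Pool.Agent.Lib.MP_c7af3c_ag.T2.H49.Pencil
import Pool.Agent.Lib.MP_c7af3c_ag.T2.H49.Rnc

/-!
# MP_c7af3c_ag, T2: Lemma P and the count together
-/

set_option autoImplicit false

namespace Pool.Agent.T2.H49

open MvPolynomial Pool.Agent.Gen

/-- Module NOPENCIL. `ι l` is a family of `k`-rational `r x (r + 1)` matrices, `sum u_l ι_l` has rank
`r` and kills `y`; all `2 x 2` minors of the `ι_l` vanish at `y`. -/
def NopencilStatement : Prop := ∀ (Ω : Type) [Field Ω] [CharZero Ω] (k : Subfield Ω)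
  (n c r : ℕ) (d : Fin c → ℕ) (D : DSys Ω n c d) (x : Fin (n + 1) → Ω)
  (P : Fin (r + 1) → Fin (n + 1) → Ω) (y : Fin (r + 1) → Ω),
  (∀ (z : Ω) (p : Polynomial Ω), p ≠ 0 → (∀ i, p.coeff i ∈ k) → p.eval z = 0 → z ∈ k) →
  (∀ m I, coeff I (D.F m) ∈ k) → (∀ m, eval x (D.F m) = 0) → 1 ≤ r →
  (r + 1) * (n + 1) < ∑ m, (r * d m + 1) + 4 →
  (∀ i f, P i f ∈ k) → LinearIndependent Ω P → (∀ f, x f = ∑ i, P i f * y i) →
  (∀ a : Fin (r + 1) → Ω, (∀ i, a i ∈ k) → ∑ i, a i * y i = 0 → a = 0) →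
  ∀ (N : ℕ) (ι : Fin N → Fin r → Fin (r + 1) → Ω) (u : Fin N → Ω),
  (∀ l e j, ι l e j ∈ k) → (∀ e, ∑ j, (∑ l, u l * ι l e j) * y j = 0) →
  (LinearIndependent Ω fun e j => ∑ l, u l * ι l e j) →
  (∀ l l' e e', (∑ j, ι l e j * y j) * (∑ j, ι l' e' j * y j) =
    (∑ j, ι l e' j * y j) * (∑ j, ι l' e j * y j)) → False

theorem nopencil : NopencilStatement := by
  intro Ω _ _ k n c r d D x P y hk hF h0 hr hnum hPk hP hx hy N ι u hι hu hrk hmin
  have hK : ∀ z : Ω, IsAlgebraic k z → z ∈ Set.range (algebraMap k Ω) := by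
    rintro z ⟨p, hp, hz⟩
    have h1 := hk z (p.map (algebraMap k Ω))
      ((Polynomial.map_ne_zero_iff (algebraMap k Ω).injective).2 hp)
      (fun i => by rw [Polynomial.coeff_map]; exact (p.coeff i).2)
      (by rw [Polynomial.eval_map]; exact hz)
    exact ⟨⟨z, h1⟩, rfl⟩
  have hyk : LinearIndependent k y := by
    rw [Fintype.linearIndependent_iff]
    intro g hg i
    have h1 := hy (fun i => (g i : Ω)) (fun i => (g i).2) (by
      rw [← hg]
      exact Finset.sum_congr rfl fun i _ => rfl)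
    exact Subtype.ext (congrFun h1 i)
  have : Infinite k := Infinite.of_injective (fun m : ℕ => (m : k)) Nat.cast_injective
  let ι' : Fin N → Matrix (Fin r) (Fin (r + 1)) k := fun l => Matrix.of fun e j => ⟨ι l e j, hι l e j⟩
  have h1 : (∑ l, u l • (ι' l).map (algebraMap k Ω)) =
      Matrix.of fun e j => ∑ l, u l * ι l e j := by
    ext e j
    rw [Matrix.sum_apply]
    rfl
  have h2 : ∀ l e, ((ι' l).map (algebraMap k Ω)).mulVec y e = ∑ j, ι l e j * y j :=
    fun _ _ => rfl
  obtain ⟨t, lam, A, ht, hlam, hA, hyA⟩ := pencil hK hr hyk ι' u (by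
      rw [h1]
      funext e
      exact hu e) (by rw [h1]; exact hrk) (by
      intro l l' e e'
      rw [h2, h2, h2, h2]
      exact hmin l l' e e')
  refine no_rnc_point (K := k) hK D (fun m I => ⟨⟨_, hF m I⟩, rfl⟩) hr hnum
    (fun i f => ∑ j, A i j * ⟨P j f, hPk j f⟩) ?_ t lam ht hlam ?_
  · -- independence
    have h3 : (fun i f => algebraMap k Ω (∑ j, A i j * ⟨P j f, hPk j f⟩)) =
        fun i => ∑ j, algebraMap k Ω (A i j) • P j := by
      funext i f
      rw [map_sum, Finset.sum_apply]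
      exact Finset.sum_congr rfl fun j _ => by rw [map_mul]; rfl
    rw [h3, Fintype.linearIndependent_iff]
    intro g hg
    have h4 : ∑ j, (∑ i, g i * algebraMap k Ω (A i j)) • P j = 0 := by
      rw [← hg]
      simp only [Finset.smul_sum, Finset.sum_smul, smul_smul]
      exact Finset.sum_comm
    have h5 := Fintype.linearIndependent_iff.1 hP _ h4
    have h6 : (A.map (algebraMap k Ω)).det ≠ 0 := by
      have := RingHom.map_det (algebraMap k Ω) A
      rw [RingHom.mapMatrix_apply] at this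
      rw [← this]
      exact (map_ne_zero_iff _ (algebraMap k Ω).injective).2 hA
    have h7 : Matrix.vecMul g (A.map (algebraMap k Ω)) = 0 := by
      funext j
      exact h5 j
    exact congrFun (Matrix.eq_zero_of_vecMul_eq_zero h6 h7)
  · intro m
    rw [← h0 m]
    congr 1
    congr 1
    funext f
    rw [hx f]
    simp only [hyA]
    simp only [map_sum, map_mul, Finset.mul_sum, Finset.sum_mul]
    rw [Finset.sum_comm]
    refine Finset.sum_congr rfl fun j _ => Finset.sum_congr rfl fun i _ => ?_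
    have : algebraMap k Ω ⟨P j f, hPk j f⟩ = P j f := rfl
    rw [this]
    ring

end Pool.Agent.T2.H49
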