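import Mathlib

/-!
# MP_c7af3c_ag, T2: Lemma P (pencils)
If all `2 x 2` minors of a space of `K`-rational `r x (r+1)` matrices vanish at `y` then `y` lies
on a `K`-rational normal curve. See finding 4118.
-/

set_option autoImplicit false

namespace Pool.Agent.T2.H49

open Matrix

section ext

set_option linter.unusedSectionVars false

variable {R : Type} [CommRing R] {r : ℕ}

/-- a row `b` above the matrix `M` -/
def extM (b : Fin (r + 1) → R) (M : Matrix (Fin r) (Fin (r + 1)) R) :
    Matrix (Fin (r + 1)) (Fin (r + 1)) R :=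
  Matrix.of (Fin.cons (α := fun _ => Fin (r + 1) → R) b M)

theorem extM_zero (b : Fin (r + 1) → R) (M : Matrix (Fin r) (Fin (r + 1)) R) (j : Fin (r + 1)) :
    extM b M 0 j = b j := rfl

theorem extM_succ (b : Fin (r + 1) → R) (M : Matrix (Fin r) (Fin (r + 1)) R) (i : Fin r)
    (j : Fin (r + 1)) : extM b M i.succ j = M i j := rfl

/-- the vector of the signed maximal minors -/
def mnr (M : Matrix (Fin r) (Fin (r + 1)) R) (j : Fin (r + 1)) : R :=
  (-1) ^ (j : ℕ) * det (M.submatrix id j.succAbove)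

theorem extM_submatrix (b : Fin (r + 1) → R) (M : Matrix (Fin r) (Fin (r + 1)) R)
    (j : Fin (r + 1)) :
    (extM b M).submatrix Fin.succ j.succAbove = M.submatrix id j.succAbove := by
  ext a c
  simp [extM_succ]

theorem det_extM (b : Fin (r + 1) → R) (M : Matrix (Fin r) (Fin (r + 1)) R) :
    det (extM b M) = ∑ j, b j * mnr M j := by
  rw [Matrix.det_succ_row_zero]
  refine Finset.sum_congr rfl fun j _ => ?_
  rw [extM_submatrix]
  rw [mnr, extM_zero]
  ring

theorem adj_extM (b : Fin (r + 1) → R) (M : Matrix (Fin r) (Fin (r + 1)) R)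
    (j : Fin (r + 1)) : adjugate (extM b M) j 0 = mnr M j := by
  rw [Matrix.adjugate_fin_succ_eq_det_submatrix, Fin.succAbove_zero, extM_submatrix]
  simp [mnr]

theorem ker_extM (b y : Fin (r + 1) → R) (M : Matrix (Fin r) (Fin (r + 1)) R)
    (h : M *ᵥ y = 0) (j : Fin (r + 1)) :
    (∑ i, b i * mnr M i) * y j = (∑ i, b i * y i) * mnr M j := by
  have h1 : extM b M *ᵥ y = Pi.single 0 (∑ i, b i * y i) := by
    ext a
    refine Fin.cases ?_ (fun a => ?_) a
    · simp [extM_zero, Matrix.mulVec, dotProduct]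
    · have := congrFun h a
      simpa [extM_succ, Matrix.mulVec, dotProduct] using this
  have h2 : adjugate (extM b M) *ᵥ (extM b M *ᵥ y) = det (extM b M) • y := by
    rw [Matrix.mulVec_mulVec, Matrix.adjugate_mul, Matrix.smul_mulVec, Matrix.one_mulVec]
  have h3 := congrFun h2 j
  rw [h1, det_extM] at h3
  simp only [Pi.smul_apply, smul_eq_mul] at h3
  rw [← h3]
  simp only [Matrix.mulVec, dotProduct]
  rw [Finset.sum_eq_single 0]
  · simp [adj_extM, mul_comm]
  · intro i _ hi
    simp [Pi.single_eq_of_ne hi]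
  · simp

end ext

/-- rows independent implies a maximal minor is not zero -/
theorem exists_mnr {Ω : Type} [Field Ω] {r : ℕ} (M : Matrix (Fin r) (Fin (r + 1)) Ω)
    (h : LinearIndependent Ω M) : ∃ j, mnr M j ≠ 0 := by
  by_contra hc
  push Not at hc
  have hne : Submodule.span Ω (Set.range M) ≠ ⊤ := by
    intro ht
    have h1 := finrank_span_eq_card h
    rw [ht, finrank_top, Module.finrank_fin_fun, Fintype.card_fin] at h1
    omega
  obtain ⟨b, hb⟩ : ∃ b : Fin (r + 1) → Ω, b ∉ Submodule.span Ω (Set.range M) := by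
    by_contra hcc
    push Not at hcc
    exact hne (eq_top_iff.2 fun b _ => hcc b)
  have h2 : LinearIndependent Ω (extM b M).row := by
    have := (linearIndependent_finCons (K := Ω) (x := b) (v := M)).2 ⟨h, hb⟩
    exact this
  have h3 := Matrix.linearIndependent_rows_iff_isUnit.1 h2
  rw [Matrix.isUnit_iff_isUnit_det, det_extM] at h3
  refine h3.ne_zero ?_
  simp [hc]

theorem mulVec_inj {K Ω : Type} [Field K] [Field Ω] [Algebra K Ω] {m : ℕ} {r : Type}
    {y : Fin m → Ω} (hy : LinearIndependent K y) (M : Matrix r (Fin m) K)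
    (h : (M.map (algebraMap K Ω)) *ᵥ y = 0) : M = 0 := by
  ext i j
  have h1 := congrFun h i
  simp only [Matrix.mulVec, dotProduct, Matrix.map_apply, Pi.zero_apply] at h1
  have h2 := Fintype.linearIndependent_iff.1 hy (fun j => M i j)
    (by simpa [Algebra.smul_def] using h1)
  exact h2 j

/-- a `K`-combination of maximal rank -/
theorem exists_comb {K Ω : Type} [Field K] [Field Ω] [Algebra K Ω] [Infinite K] {N r : ℕ}
    (ι : Fin N → Matrix (Fin r) (Fin (r + 1)) K) (u : Fin N → Ω) (j : Fin (r + 1))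
    (h : mnr (∑ l, u l • (ι l).map (algebraMap K Ω)) j ≠ 0) :
    ∃ a : Fin N → K, mnr (∑ l, a l • ι l) j ≠ 0 := by
  classical
  let P : MvPolynomial (Fin N) Ω := det (Matrix.of fun i c : Fin r =>
    ∑ l, MvPolynomial.X l * MvPolynomial.C (algebraMap K Ω (ι l i (j.succAbove c))))
  have hP : ∀ v : Fin N → Ω, MvPolynomial.eval v P =
      det ((∑ l, v l • (ι l).map (algebraMap K Ω)).submatrix id j.succAbove) := by
    intro v
    rw [RingHom.map_det]
    congr 1
    ext i c
    simp [Matrix.sum_apply, RingHom.mapMatrix_apply]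
  have hP0 : P ≠ 0 := by
    intro h0
    apply h
    rw [mnr, ← hP, h0]
    simp
  by_contra hc
  push Not at hc
  apply hP0
  refine MvPolynomial.funext_set (fun _ => Set.range (algebraMap K Ω)) (fun _ =>
    Set.infinite_range_of_injective (algebraMap K Ω).injective) fun v hv => ?_
  have hv2 : ∀ l, ∃ a, algebraMap K Ω a = v l := fun l => hv l (Set.mem_univ l)
  choose a ha using hv2
  have h1 := hc a
  rw [mnr] at h1
  have h2 : det ((∑ l, a l • ι l).submatrix id j.succAbove) = 0 := by
    rcases mul_eq_zero.1 h1 with h | h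
    · exact absurd h (pow_ne_zero _ (by simp))
    · exact h
  rw [hP, map_zero]
  have h3 := congrArg (algebraMap K Ω) h2
  rw [map_zero, RingHom.map_det] at h3
  rw [← h3]
  congr 1
  ext i c
  simp [Matrix.sum_apply, ← ha, Algebra.smul_def]

/-- **Lemma P.** -/
theorem pencil {K Ω : Type} [Field K] [Field Ω] [Algebra K Ω] [Infinite K]
    (hK : ∀ z : Ω, IsAlgebraic K z → z ∈ Set.range (algebraMap K Ω)) {r N : ℕ} (hr : 1 ≤ r)
    {y : Fin (r + 1) → Ω} (hy : LinearIndependent K y)
    (ι : Fin N → Matrix (Fin r) (Fin (r + 1)) K) (u : Fin N → Ω)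
    (h0 : (∑ l, u l • (ι l).map (algebraMap K Ω)) *ᵥ y = 0)
    (hrk : LinearIndependent Ω (∑ l, u l • (ι l).map (algebraMap K Ω)).row)
    (hmin : ∀ l l' e e', ((ι l).map (algebraMap K Ω) *ᵥ y) e *
        ((ι l').map (algebraMap K Ω) *ᵥ y) e' =
      ((ι l).map (algebraMap K Ω) *ᵥ y) e' * ((ι l').map (algebraMap K Ω) *ᵥ y) e) :
    ∃ (t lam : Ω) (A : Matrix (Fin (r + 1)) (Fin (r + 1)) K),
      t ∉ Set.range (algebraMap K Ω) ∧ lam ≠ 0 ∧ A.det ≠ 0 ∧
      ∀ j, y j = lam * ∑ i, algebraMap K Ω (A i j) * t ^ (i : ℕ) := by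
  classical
  have : Nonempty (Fin r) := ⟨⟨0, hr⟩⟩
  obtain ⟨j0, hj0⟩ := exists_mnr _ hrk
  obtain ⟨a, ha⟩ := exists_comb ι u j0 hj0
  set M1 := ∑ l, a l • ι l with hM1
  let f : Matrix (Fin r) (Fin (r + 1)) K →ₗ[K] (Fin r → Ω) :=
    { toFun := fun M => M.map (algebraMap K Ω) *ᵥ y
      map_add' := by
        intro M M'
        ext e
        simp [Matrix.mulVec, dotProduct, add_mul, Finset.sum_add_distrib]
      map_smul' := by
        intro s M
        ext e
        simp [Matrix.mulVec, dotProduct, Algebra.smul_def, Finset.mul_sum, mul_assoc] }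
  have hf : ∀ M, f M = M.map (algebraMap K Ω) *ᵥ y := fun _ => rfl
  have hM10 : M1 ≠ 0 := by
    intro h
    apply ha
    rw [mnr, h]
    simp
  have hfM1 : f M1 ≠ 0 := fun h => hM10 (mulVec_inj hy M1 h)
  obtain ⟨e0, he0⟩ : ∃ e0, f M1 e0 ≠ 0 := by
    by_contra hc
    push Not at hc
    exact hfM1 (funext hc)
  have hprop : ∀ l e, f (ι l) e * f M1 e0 = f (ι l) e0 * f M1 e := by
    intro l e
    rw [hM1, map_sum]
    simp only [Finset.sum_apply, Finset.mul_sum, map_smul, Pi.smul_apply]
    refine Finset.sum_congr rfl fun l' _ => ?_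
    rw [mul_smul_comm, mul_smul_comm]
    congr 1
    exact hmin l l' e e0
  let c : Fin N → Ω := fun l => f (ι l) e0 / f M1 e0
  have hc : ∀ l e, f (ι l) e = c l * f M1 e := by
    intro l e
    have := hprop l e
    simp only [c]
    field_simp
    exact this
  have hfsum : (∑ l, u l • (ι l).map (algebraMap K Ω)) *ᵥ y = (∑ l, u l * c l) • f M1 := by
    ext e
    have h1 : ((∑ l, u l • (ι l).map (algebraMap K Ω)) *ᵥ y) e = ∑ l, u l * f (ι l) e := by
      rw [Matrix.sum_mulVec]
      simp [Matrix.smul_mulVec, hf]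
    rw [h1]
    simp only [hc, Pi.smul_apply, smul_eq_mul, Finset.sum_mul]
    exact Finset.sum_congr rfl fun l _ => by ring
  have hu0 : ∑ l, u l * c l = 0 := by
    rw [h0] at hfsum
    have := congrFun hfsum e0
    simp only [Pi.zero_apply, Pi.smul_apply, smul_eq_mul] at this
    rcases mul_eq_zero.1 this.symm with h | h
    · exact h
    · exact absurd h he0
  obtain ⟨l, hl⟩ : ∃ l, c l ∉ Set.range (algebraMap K Ω) := by
    by_contra hcc
    push Not at hcc
    choose c' hc' using hcc
    have h1 : ∀ l, ι l = c' l • M1 := by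
      intro l
      rw [← sub_eq_zero]
      refine mulVec_inj hy _ ?_
      rw [← hf, map_sub, map_smul, sub_eq_zero]
      ext e
      rw [hc, Pi.smul_apply, Algebra.smul_def, hc']
    have h2 : (∑ l, u l • (ι l).map (algebraMap K Ω)) = 0 := by
      have : ∀ l, u l • (ι l).map (algebraMap K Ω) = (u l * c l) • M1.map (algebraMap K Ω) := by
        intro l
        rw [h1 l]
        ext i j
        simp [← hc', mul_assoc]
      rw [Finset.sum_congr rfl fun l _ => this l, ← Finset.sum_smul, hu0, zero_smul]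
    rw [h2] at hrk
    exact hrk.ne_zero e0 rfl
  set M2 := ι l with hM2
  set t : Ω := -c l with ht
  have htK : t ∉ Set.range (algebraMap K Ω) := by
    rintro ⟨s, hs⟩
    exact hl ⟨-s, by rw [map_neg, hs, ht, neg_neg]⟩
  let κ : Matrix (Fin r) (Fin (r + 1)) Ω :=
    t • M1.map (algebraMap K Ω) + M2.map (algebraMap K Ω)
  have hκ : κ *ᵥ y = 0 := by
    simp only [κ, Matrix.add_mulVec, Matrix.smul_mulVec]
    rw [← hf, ← hf]
    ext e
    rw [Pi.add_apply, Pi.smul_apply, hM2, hc, ht]
    simp
  let φ : Fin (r + 1) → Polynomial K := fun j => (-1) ^ (j : ℕ) *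
    det ((Polynomial.X : Polynomial K) • (M1.submatrix id j.succAbove).map Polynomial.C +
      (M2.submatrix id j.succAbove).map Polynomial.C)
  have hφt : ∀ j, Polynomial.aeval t (φ j) = mnr κ j := by
    intro j
    simp only [φ, map_mul, map_pow, map_neg, map_one, mnr]
    congr 1
    rw [AlgHom.map_det]
    congr 1
    ext i c
    simp [κ]
    ring
  have hdeg : ∀ j, (φ j).natDegree ≤ r := by
    intro j
    have h1 := Polynomial.natDegree_det_X_add_C_le (M1.submatrix id j.succAbove)
      (M2.submatrix id j.succAbove)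
    rw [Fintype.card_fin] at h1
    simp only [φ]
    rcases neg_one_pow_eq_or (Polynomial K) (j : ℕ) with h | h
    · rw [h, one_mul]; exact h1
    · rw [h, neg_mul, one_mul, Polynomial.natDegree_neg]; exact h1
  have hlead : (φ j0).coeff r ≠ 0 := by
    have h1 := Polynomial.coeff_det_X_add_C_card (M1.submatrix id j0.succAbove)
      (M2.submatrix id j0.succAbove)
    rw [Fintype.card_fin] at h1
    have h2 : det (M1.submatrix id j0.succAbove) ≠ 0 := fun h => ha (by rw [mnr, h, mul_zero])
    simp only [φ]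
    rcases neg_one_pow_eq_or (Polynomial K) (j0 : ℕ) with h | h
    · rw [h, one_mul, h1]; exact h2
    · rw [h, neg_mul, one_mul, Polynomial.coeff_neg, h1]; exact neg_ne_zero.2 h2
  have hφ0 : φ j0 ≠ 0 := fun h => hlead (by rw [h, Polynomial.coeff_zero])
  have hk0 : mnr κ j0 ≠ 0 := by
    rw [← hφt]
    intro h
    exact htK (hK t ⟨φ j0, hφ0, h⟩)
  let A : Matrix (Fin (r + 1)) (Fin (r + 1)) K := fun i j => (φ j).coeff i
  have hA : ∀ j, mnr κ j = ∑ i, algebraMap K Ω (A i j) * t ^ (i : ℕ) := by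
    intro j
    rw [← hφt, Polynomial.aeval_eq_sum_range' (lt_of_le_of_lt (hdeg j) (Nat.lt_succ_self r)),
      Finset.sum_range]
    exact Finset.sum_congr rfl fun i _ => by simp [A, Algebra.smul_def]
  have hy0 : y j0 ≠ 0 := hy.ne_zero j0
  have hyj : ∀ j, y j = (y j0 / mnr κ j0) * mnr κ j := by
    intro j
    have h1 := ker_extM (Pi.single j0 1) y κ hκ j
    rw [Finset.sum_eq_single j0, Finset.sum_eq_single j0] at h1
    · simp only [Pi.single_eq_same, one_mul] at h1
      field_simp
      rw [mul_comm] at h1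
      rw [h1]
    all_goals simp +contextual [Pi.single_eq_of_ne]
  refine ⟨t, y j0 / mnr κ j0, A, htK, div_ne_zero hy0 hk0, ?_, fun j => by rw [← hA]; exact hyj j⟩
  intro hdet
  obtain ⟨v, hv0, hv⟩ := Matrix.exists_mulVec_eq_zero_iff.2 hdet
  apply hv0
  have h1 : ∑ j, v j • y j = 0 := by
    have h2 : ∀ j, v j • y j = (y j0 / mnr κ j0) * ∑ i, algebraMap K Ω (A i j * v j) *
        t ^ (i : ℕ) := by
      intro j
      have h3 : mnr κ j = ∑ i : Fin (r + 1), algebraMap K Ω (A i j) * t ^ (i : ℕ) := hA j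
      rw [Algebra.smul_def, hyj j, h3, mul_left_comm, Finset.mul_sum]
      congr 1
      exact Finset.sum_congr rfl fun i _ => by rw [map_mul]; ring
    rw [Finset.sum_congr rfl fun j _ => h2 j, ← Finset.mul_sum, Finset.sum_comm]
    have h3 : ∀ i, ∑ j, algebraMap K Ω (A i j * v j) * t ^ (i : ℕ) = 0 := by
      intro i
      have h4 := congrFun hv i
      simp only [Matrix.mulVec, dotProduct, Pi.zero_apply] at h4
      rw [← Finset.sum_mul, ← map_sum, h4, map_zero, zero_mul]
    rw [Finset.sum_eq_zero fun i _ => h3 i, mul_zero]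
  exact funext (Fintype.linearIndependent_iff.1 hy v h1)

end Pool.Agent.T2.H49
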